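import Pool.Agent.Lib_MP_0e3657_pr.Main

/-!
# MP_0e3657_pr: a lower semicontinuous minorant of the asymptotic entropy

`G` is any group (in particular any free Burnside group `B(m,n)`).  Probability measures on `G` are functions
`G → ℝ`.  The definitions are in `Pool.Agent.Lib_MP_0e3657_pr`:

* `FinEnt p`: `p ≥ 0`, `Σ p = 1`, and `-Σ p log p` converges (finite Shannon entropy);
* `shannon p = -Σ p log p` (written `H`);
* `conv μ σ x = Σ_g μ(g) σ(g⁻¹ x)` and `cpow μ n` the `n`-th convolution power (`cpow μ 0` is the unit mass at `1`);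
* `asympEntropy μ = lim H(μ^{*n}) / n` (written `h`); that this is a limit is the first item below;
* `gain τ = inf_σ [max(H(τ * σ), H(σ * τ)) - H(σ)]`, over all probability measures `σ` of finite entropy;
* `uniformGain μ = sup_{j ≥ 1} gain(μ^{*j}) / j` (written `M`);
* `NormLe μ ρ`: `‖μ * φ‖₂ ≤ ρ ‖φ‖₂` for every finitely supported `φ : G → ℝ`.
-/

set_option autoImplicit false

open Filter

namespace Pool.Agent.Results.MP_0e3657_pr.EntropyGain

open Pool.MP_0e3657_pr

theorem result {G : Type*} [Group G] (μ : G → ℝ) (hμ : FinEnt μ) :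
    -- the asymptotic entropy is a limit
    Tendsto (fun n : ℕ => shannon (cpow μ n) / n) atTop (nhds (asympEntropy μ)) ∧
    -- `0 ≤ M(μ) ≤ h(μ)`
    0 ≤ uniformGain μ ∧ uniformGain μ ≤ asympEntropy μ ∧
    -- the defining property of the gain: it bounds the gain for every `σ`
    (∀ (j : ℕ) (σ : G → ℝ), FinEnt σ →
      shannon σ + gain (cpow μ j) ≤ max (shannon (conv (cpow μ j) σ)) (shannon (conv σ (cpow μ j)))) ∧
    -- the spectral lower bound of `M(μ)`
    (∀ (j : ℕ), 1 ≤ j → ∀ ρ : ℝ, 0 < ρ → NormLe (cpow μ j) ρ → -(2 / j) * Real.log ρ ≤ uniformGain μ) ∧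
    -- `liminf h(μ_k) ≥ liminf M(μ_k) ≥ M(μ)` along every pointwise convergent sequence
    (∀ μk : ℕ → G → ℝ, (∀ k, FinEnt (μk k)) → (∀ g, Tendsto (fun k => μk k g) atTop (nhds (μ g))) →
      ∀ ε > 0, ∀ᶠ k in atTop, uniformGain μ - ε ≤ uniformGain (μk k) ∧ uniformGain (μk k) ≤ asympEntropy (μk k)) ∧
    -- so `liminf h(μ_k) ≥ h(μ)` if `M(μ) = h(μ)`
    (uniformGain μ = asympEntropy μ →
      ∀ μk : ℕ → G → ℝ, (∀ k, FinEnt (μk k)) → (∀ g, Tendsto (fun k => μk k g) atTop (nhds (μ g))) →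
        ∀ ε > 0, ∀ᶠ k in atTop, asympEntropy μ - ε ≤ asympEntropy (μk k)) := by
  have hmain : ∀ μk : ℕ → G → ℝ, (∀ k, FinEnt (μk k)) → (∀ g, Tendsto (fun k => μk k g) atTop (nhds (μ g))) →
      ∀ ε > 0, ∀ᶠ k in atTop, uniformGain μ - ε ≤ uniformGain (μk k) ∧
        uniformGain (μk k) ≤ asympEntropy (μk k) := fun μk hk hlim ε hε =>
    (eventually_lower hμ hk hlim hε).mono fun k h => ⟨h, uniformGain_le (hk k)⟩
  refine ⟨tendsto_asympEntropy hμ, uniformGain_nonneg hμ, uniformGain_le hμ, fun j σ hσ => gain_le (hμ.cpow j) hσ,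
    fun j hj ρ hρ hN => uniformGain_spectral hμ hj hρ hN, hmain, fun h μk hk hlim ε hε => ?_⟩
  rw [← h]
  exact (hmain μk hk hlim ε hε).mono fun k h => h.1.trans h.2

end Pool.Agent.Results.MP_0e3657_pr.EntropyGain
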