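import Pool.Agent.Lib_MP_0e3657_rd.Upper

/-!
# MP_0e3657_pr: continuity of the asymptotic entropy from (entropic) rapid decay

`G` is any group (for instance a free Burnside group `B(m,n)`).  Probability measures on `G` are functions `G → ℝ`.  The
definitions are in `Pool.Agent.Lib_MP_0e3657_pr` and `Pool.Agent.Lib_MP_0e3657_rd`:

* `FinEnt p`: `p ≥ 0`, `Σ p = 1`, and `-Σ p log p` converges (finite Shannon entropy);
* `shannon p = -Σ p log p` (written `H`);
* `conv μ σ x = Σ_g μ(g) σ(g⁻¹ x)` and `cpow μ n` the `n`-th convolution power;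
* `asympEntropy μ = lim H(μ^{*n}) / n` (written `h`); the limit exists by the first item;
* `IsLength ℓ`: `ℓ ≥ 0` and `ℓ(g h) ≤ ℓ(g) + ℓ(h)` (for instance a word length);
* `DecayWeight W`: `‖f * φ‖₂² ≤ (Σ_g f(g)² W(g)) ‖φ‖₂²` for all finitely supported `f`, `φ`;
* `RapidDecay ℓ C s`: `C (1 + ℓ)^s` is a decay weight (property (RD) of Haagerup and Jolissaint);
* `SubexpDecay ℓ`: for every `ε > 0` there is `C` such that `C exp(ε ℓ)` is a decay weight;
* `EntropicDecay ℓ B s`: `H(μ) + H(σ) ≤ H(μ * σ) + B + s Σ μ log (1 + ℓ)` for all `μ`, `σ` of finite entropy (and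
  `Σ μ log (1 + ℓ) < ∞`);
* `EntropicSubexp ℓ`: for every `ε > 0` there is `B` with `H(μ) + H(σ) ≤ H(μ * σ) + B + ε Σ μ ℓ` for all `μ`, `σ` of
  finite entropy (and `Σ μ ℓ < ∞`).
-/

set_option autoImplicit false

open Filter

namespace Pool.Agent.Results.MP_0e3657_pr.RapidDecay

open Pool.MP_0e3657_pr

/-- the asymptotic entropy is continuous at `μ` (as in Q1): if the `μ_k` have finite entropy and `μ_k → μ` pointwise then
`liminf h(μ_k) ≥ h(μ)`, and `h(μ_k) → h(μ)` if moreover `H(μ_k) → H(μ)` -/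
def ContinuousAtMeasure {G : Type*} [Group G] (μ : G → ℝ) : Prop :=
  ∀ μk : ℕ → G → ℝ, (∀ k, FinEnt (μk k)) → (∀ g, Tendsto (fun k => μk k g) atTop (nhds (μ g))) →
    (∀ ε > 0, ∀ᶠ k in atTop, asympEntropy μ - ε ≤ asympEntropy (μk k)) ∧
    (Tendsto (fun k => shannon (μk k)) atTop (nhds (shannon μ)) →
      Tendsto (fun k => asympEntropy (μk k)) atTop (nhds (asympEntropy μ)))

theorem result {G : Type*} [Group G] (ℓ : G → ℝ) (hℓ : IsLength ℓ) :
    -- the asymptotic entropy is a limit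
    (∀ μ : G → ℝ, FinEnt μ → Tendsto (fun n : ℕ => shannon (cpow μ n) / n) atTop (nhds (asympEntropy μ))) ∧
    -- the decay properties imply their entropic forms
    (∀ C s : ℝ, RapidDecay ℓ C s → EntropicDecay ℓ (Real.log C) s) ∧ (SubexpDecay ℓ → EntropicSubexp ℓ) ∧
    (∀ B s : ℝ, 0 ≤ s → EntropicDecay ℓ B s → EntropicSubexp ℓ) ∧
    -- entropic rapid decay, finite logarithmic moment
    (∀ B s : ℝ, 0 ≤ s → EntropicDecay ℓ B s → ∀ μ : G → ℝ, FinEnt μ → (Summable fun g => μ g * Real.log (1 + ℓ g)) →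
      ContinuousAtMeasure μ ∧
      -- `n h(μ) ≤ H(μ^{*n}) ≤ n h(μ) + B + s Σ μ^{*n} log (1 + ℓ)`, the last sum converges
      (∀ n : ℕ, 1 ≤ n → (Summable fun g => cpow μ n g * Real.log (1 + ℓ g)) ∧
        n * asympEntropy μ ≤ shannon (cpow μ n) ∧
        shannon (cpow μ n) ≤ n * asympEntropy μ + B + s * ∑' g, cpow μ n g * Real.log (1 + ℓ g)) ∧
      -- and `H(μ^{*n}) ≤ n h(μ) + B + s log (1 + n Σ μ ℓ)` if the first moment is finite
      ((Summable fun g => μ g * ℓ g) → ∀ n : ℕ, 1 ≤ n →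
        shannon (cpow μ n) ≤ n * asympEntropy μ + B + s * Real.log (1 + n * ∑' g, μ g * ℓ g))) ∧
    -- entropic subexponential decay, finite first moment
    (EntropicSubexp ℓ → ∀ μ : G → ℝ, FinEnt μ → (Summable fun g => μ g * ℓ g) → ContinuousAtMeasure μ) := by
  have hcont : ∀ μ : G → ℝ, FinEnt μ → uniformGain μ = asympEntropy μ → ContinuousAtMeasure μ := by
    intro μ hμ h μk hk hlim
    refine ⟨fun ε hε => ?_, fun hH => tendsto_of_gain hμ h hk hlim hH⟩
    rw [← h]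
    exact (eventually_lower hμ hk hlim hε).mono fun k hk2 => hk2.trans (uniformGain_le (hk k))
  refine ⟨fun μ hμ => tendsto_asympEntropy hμ, fun C s h => h.entropic hℓ, fun h => h.entropic, fun B s hs0 h => h.subexp hℓ hs0,
    ?_, ?_⟩
  · intro B s hs0 h μ hμ hm
    refine ⟨hcont μ hμ (uniformGain_rapid hμ hℓ hs0 h hm), fun n hn => ?_, fun hm1 n hn => ?_⟩
    · obtain ⟨j, rfl⟩ : ∃ j, n = j + 1 := ⟨n - 1, by omega⟩
      refine ⟨(moment_cpow hμ.isProb (isLength_log_one hℓ) hm j).1, ?_, rate_log hμ hℓ h hm j⟩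
      have h1 := asympEntropy_le_div hμ j
      rw [le_div_iff₀ (by positivity)] at h1
      linarith
    · obtain ⟨j, rfl⟩ : ∃ j, n = j + 1 := ⟨n - 1, by omega⟩
      exact rate_first hμ hℓ hs0 h hm1 j
  · intro h μ hμ hm
    exact hcont μ hμ (uniformGain_subexp hμ hℓ h hm)

end Pool.Agent.Results.MP_0e3657_pr.RapidDecay
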